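import Mathlib
import Pool.Agent.Helper110.Kuiper

/-!
# The unitary group of `L²(G) ⊗ ℓ²` with the norm topology is equivariantly contractible

Let `G` be a compact second countable topological group (for instance a compact Lie group) and let
`G` act on `H = L²(G) ⊗ ℓ²(ℕ)` by the regular representation on the first factor. We prove that the
unitary group `U(H)`, with the operator norm topology and the conjugation action of `G` (which is
not norm continuous in general), is equivariantly contractible.
-/

namespace Pool.Agent.Results.MP_3c1a79_gt.EquivariantKuiper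

open MeasureTheory

noncomputable section

/-- The complex Hilbert space `L²(G)`. -/
def L2 {G : Type} [MeasurableSpace G] (μ : Measure G) : Type := Lp ℂ 2 μ

section

variable {G : Type} [MeasurableSpace G] (μ : Measure G)

instance : NormedAddCommGroup (L2 μ) := (inferInstance : NormedAddCommGroup (Lp ℂ 2 μ))

instance : InnerProductSpace ℂ (L2 μ) := (inferInstance : InnerProductSpace ℂ (Lp ℂ 2 μ))

instance : CompleteSpace (L2 μ) := (inferInstance : CompleteSpace (Lp ℂ 2 μ))

end

/-- The Hilbert space tensor product `E ⊗ ℓ²(ℕ)`, realised as the Hilbert space `ℓ²(ℕ, E)` of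
square summable sequences in `E`. -/
def Amp (E : Type) [NormedAddCommGroup E] : Type := lp (fun _ : ℕ => E) 2

section

variable (E : Type) [NormedAddCommGroup E]

instance : NormedAddCommGroup (Amp E) :=
  (inferInstance : NormedAddCommGroup (lp (fun _ : ℕ => E) 2))

variable [InnerProductSpace ℂ E]

instance : InnerProductSpace ℂ (Amp E) :=
  (inferInstance : InnerProductSpace ℂ (lp (fun _ : ℕ => E) 2))

instance [CompleteSpace E] : CompleteSpace (Amp E) :=
  (inferInstance : CompleteSpace (lp (fun _ : ℕ => E) 2))

end

/-- The unitary group `U(H)` of a complex Hilbert space `H`: the unitary elements of the algebra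
`L(H)` of bounded operators. -/
def UGroup (H : Type) [NormedAddCommGroup H] [InnerProductSpace ℂ H] [CompleteSpace H] : Type :=
  unitary (H →L[ℂ] H)

section

variable (H : Type) [NormedAddCommGroup H] [InnerProductSpace ℂ H] [CompleteSpace H]

instance : Group (UGroup H) := (inferInstance : Group (unitary (H →L[ℂ] H)))

/-- The topology of `U(H)` is induced by the operator norm on `L(H)`. -/
instance : TopologicalSpace (UGroup H) :=
  (inferInstance : TopologicalSpace (unitary (H →L[ℂ] H)))

/-- The value of a unitary operator at a vector. -/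
def UGroup.apply {H : Type} [NormedAddCommGroup H] [InnerProductSpace ℂ H] [CompleteSpace H]
    (u : UGroup H) (x : H) : H := (Subtype.val u : H →L[ℂ] H) x

end

section

variable {G : Type} [MeasurableSpace G] (μ : Measure G)

/-- The Hilbert space `H = L²(G) ⊗ ℓ²(ℕ)`. -/
def HS : Type := Amp (L2 μ)

instance : NormedAddCommGroup (HS μ) := (inferInstance : NormedAddCommGroup (Amp (L2 μ)))

instance : InnerProductSpace ℂ (HS μ) := (inferInstance : InnerProductSpace ℂ (Amp (L2 μ)))

instance : CompleteSpace (HS μ) := (inferInstance : CompleteSpace (Amp (L2 μ)))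

variable {μ}

/-- An element of `L²(G)` as an element of Mathlib's space `Lp ℂ 2 μ`. -/
def L2.toLp (f : L2 μ) : Lp ℂ 2 μ := f

/-- An element of `L²(G)` as a function on `G` (defined up to a null set). -/
def L2.fn (f : L2 μ) : G → ℂ := f.toLp

/-- An element of `ℓ²(ℕ, E)` as an element of Mathlib's space `lp`. -/
def Amp.toLp {E : Type} [NormedAddCommGroup E] (x : Amp E) : lp (fun _ : ℕ => E) 2 := x

/-- The `n`-th coordinate of an element of `ℓ²(ℕ, E)`. -/
def Amp.coord {E : Type} [NormedAddCommGroup E] (x : Amp E) (n : ℕ) : E := x.toLp n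

/-- The `n`-th coordinate of an element of `H = ℓ²(ℕ, L²(G))`. -/
def HS.coord (x : HS μ) (n : ℕ) : L2 μ := Amp.coord x n

/-- `π g = λ_g ⊗ 1` for all `g`, where `(λ_g f) (y) = f (g⁻¹ y)` is the left regular
representation; on `H = ℓ²(ℕ, L²(G))` this means `(π_g x)_n (y) = x_n (g⁻¹ y)`. -/
def IsRegular [Group G] (π : G → UGroup (HS μ)) : Prop :=
  ∀ g x n, ∀ᵐ y ∂μ, (((π g).apply x).coord n).fn y = (x.coord n).fn (g⁻¹ * y)

end

/-- A space `Y` with an action of `G` (given by `act : G → Y → Y`, no continuity in `G` is assumed)
is equivariantly contractible: there are a `G`-fixed point `y₀` and a continuous map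
`h : [0,1] × Y → Y` with `h (0, y) = y`, `h (1, y) = y₀` and `h (t, g • y) = g • h (t, y)`. -/
def EquivariantlyContractible {G Y : Type} [TopologicalSpace Y] (act : G → Y → Y) : Prop :=
  ∃ (y₀ : Y) (h : unitInterval × Y → Y), (∀ g, act g y₀ = y₀) ∧ Continuous h ∧
    (∀ y, h (0, y) = y) ∧ (∀ y, h (1, y) = y₀) ∧ ∀ t y g, h (t, act g y) = act g (h (t, y))

/-- **Main theorem.** For every compact second countable topological group `G` (in particular for
every compact Lie group), the unitary group `U(H)` of `H = L²(G) ⊗ ℓ²(ℕ)`, with the norm topology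
and the conjugation action `g · u = π_g u π_g⁻¹`, `π_g = λ_g ⊗ 1`, is equivariantly contractible. -/
theorem result (G : Type) [TopologicalSpace G] [Group G] [IsTopologicalGroup G] [CompactSpace G]
    [SecondCountableTopology G] [MeasurableSpace G] [BorelSpace G] (μ : Measure G)
    [μ.IsHaarMeasure] [IsProbabilityMeasure μ] :
    ∃ π : G → UGroup (HS μ), IsRegular π ∧ EquivariantlyContractible fun g u => π g * u * (π g)⁻¹ := by
  obtain ⟨h, hc, h0, h1, hg⟩ := Helper110.Kuiper.contr_L2 μ
  refine ⟨fun g => Helper110.Kuiper.ampU (Helper110.Kuiper.lregE μ g), ?_, 1,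
    fun p => h (p.1, p.2), ?_, ?_, ?_, ?_, ?_⟩
  · intro g x n
    exact Lp.coeFn_compMeasurePreserving (x.coord n).toLp (measurePreserving_mul_left μ g⁻¹)
  · intro g
    show Helper110.Kuiper.ampU (Helper110.Kuiper.lregE μ g) * 1 *
      (Helper110.Kuiper.ampU (Helper110.Kuiper.lregE μ g))⁻¹ = 1
    rw [mul_one, mul_inv_cancel]
  · exact hc.comp ((continuous_subtype_val.comp continuous_fst).prodMk continuous_snd)
  · intro u
    exact h0 u
  · intro u
    exact h1 u
  · intro t u g
    exact hg t g u

end

end Pool.Agent.Results.MP_3c1a79_gt.EquivariantKuiper
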